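import Pool.Agent.W_MP_f6eb07_gt.Proof

set_option autoImplicit false

namespace Pool.Agent.Results.MP_f6eb07_gt.CountableTightness

open Cardinal Pool.Agent.W_MP_f6eb07_gt

universe u

/-- Under Martin's axiom and the negation of the continuum hypothesis, every Tychonoff space `X`
such that the space of continuous real functions with the topology of pointwise convergence has
countable spread has countable tightness. -/
theorem result (hMA : MartinsAxiom) (hCH : (Cardinal.aleph 1 : Cardinal.{0}) < 𝔠) (X : Type u)
    [TopologicalSpace X] [T35Space X] (hs : spread (Cp X) = ℵ₀) : tightness X = ℵ₀ :=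
  main hMA hCH X hs

end Pool.Agent.Results.MP_f6eb07_gt.CountableTightness
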